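import Mathlib
import Pool.Agent.Helper156.JumpPoly

/-!
# MP_e50cbd_co, Q1: a polynomial bound for enlarging a regular polygon
-/

namespace Pool.Agent.Results.MP_e50cbd_co.PolynomialBound

open Pool.Agent.Helper156.JumpPoly

/-- `m N` is the least number of legal moves that turn the regular `N`-gon into the vertex set of
some larger regular `N`-gon (`⊤` if there is no such sequence of moves). -/
noncomputable def m (N : ℕ) : ℕ∞ := sInf ((fun n : ℕ => (n : ℕ∞)) '' {n | EnlargedBy N n})

/-- **Q1, answered positively**: `m N ≤ 9 N ^ 4` for every `N > 6`. -/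
theorem result (N : ℕ) (hN : 6 < N) : m N ≤ ((9 * N ^ 4 : ℕ) : ℕ∞) := by
  obtain ⟨n, hn, he⟩ := main N (Or.inr hN)
  have h1 : m N ≤ (n : ℕ∞) := sInf_le ⟨n, he, rfl⟩
  exact h1.trans (by exact_mod_cast hn)

end Pool.Agent.Results.MP_e50cbd_co.PolynomialBound
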